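import Pool.Agent.Helper90.MZ.StmtsC

/-!
# MP_79eb7e_lc: module CTR (countably many strongly regular types suffice)
-/

set_option autoImplicit false

namespace Pool.Agent.Helper90.MZ

open Pool.Agent.Helper90.TS

theorem st_CTR (h : ST_INVA) : ST_CTR := by
  intro V G _ _ X N hN hne
  have hT : ∀ A : Set V, A.Countable → ∃ T : Set (Fin 1 → V), T.Countable ∧
      ∀ x, ∃ y ∈ T, ∃ g ∈ Fx G A, g • y = x := fun A hA => X.ost A hA 1
  choose! T hTc hT using hT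
  let R : Set (Ty V) := {p | (SR X p ∧ p.A.Finite ∧ p.A ⊆ N) ∧ p.z ∈ T p.A}
  have hRc : R.Countable := by
    have hF : {A : Set V | A.Finite ∧ A ⊆ N}.Countable := Set.countable_ofPred_finite_subset hN
    refine Set.Countable.mono (s₂ := ⋃ A ∈ {A : Set V | A.Finite ∧ A ⊆ N},
      (fun q : Set (Fin 1 → V) × (Fin 1 → V) => (⟨A, q.1, q.2⟩ : Ty V)) ''
        ({D : Set (Fin 1 → V) | X.Ov A D} ×ˢ T A)) ?_ (hF.biUnion ?_)
    · rintro p ⟨⟨hp, hf, hs⟩, hz⟩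
      refine Set.mem_biUnion (x := p.A) ⟨hf, hs⟩ ?_
      exact ⟨(p.D, p.z), ⟨hp.ov, hz⟩, rfl⟩
    · intro A hA
      exact ((a_cov V G X A hA.1.countable (Fin 1)).prod (hTc A hA.1.countable)).image _
  have key : ∀ p : Ty V, SR X p → p.A.Finite → p.A ⊆ N → ∃ r ∈ R, r.A = p.A ∧ r.D = p.D ∧
      Eqv G p.A p.z r.z := by
    intro p hp hf hs
    obtain ⟨z', hz', g, hg, hgz⟩ := hT p.A hp.cnt p.z
    have hg' : g⁻¹ ∈ Fx G p.A := inv_mem hg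
    obtain ⟨-, -, h3, -, -, -, -, -, -, -, -, h12⟩ := h V G X g⁻¹
    obtain ⟨e1, e2, -, -⟩ := h12 p hp hg'
    have e3 : (mv g⁻¹ p).z = z' := by
      change g⁻¹ • p.z = z'
      rw [← hgz, inv_smul_smul]
    refine ⟨mv g⁻¹ p, ⟨⟨h3 p hp, ?_, ?_⟩, ?_⟩, e1, e2, ⟨g⁻¹, hg', rfl⟩⟩
    · rw [e1]
      exact hf
    · rw [e1]
      exact hs
    · rw [e3, e1]
      exact hz'
  obtain ⟨p0, hp0, hf0, hs0⟩ := hne
  obtain ⟨r0, hr0, -⟩ := key p0 hp0 hf0 hs0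
  obtain ⟨f, hf⟩ := hRc.exists_eq_range ⟨r0, hr0⟩
  refine ⟨f, ?_, ?_⟩
  · intro n
    have : f n ∈ R := hf ▸ ⟨n, rfl⟩
    exact this.1
  · intro p hp hpf hps
    obtain ⟨r, hr, h1, h2, h3⟩ := key p hp hpf hps
    rw [hf] at hr
    obtain ⟨n, rfl⟩ := hr
    exact ⟨n, h1, h2, h3⟩

end Pool.Agent.Helper90.MZ
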