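import Pool.Agent.Helper90.MZ.StmtsA

/-!
# MP_79eb7e_lc: modules TVL, DOM, PRX (domination)
-/

set_option autoImplicit false

namespace Pool.Agent.Helper90.MZ

open Pool.Agent.Helper90.TS

variable {V G : Type} [Group G] [MulAction G V] {X : Ctx V G}

/-- finite support in `Y` -/
theorem tvl_supp {A Y : Set V} (hA : A.Countable) (hY : Y.Countable) {ι : Type} [Finite ι]
    {E : Set (ι → V)} (hE : X.Ov (A ∪ Y) E) : ∃ (κ : Type) (_ : Finite κ) (w : κ → V)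
    (ξ : Set (κ ⊕ ι → V)), Set.range w ⊆ Y ∧ X.Ov A ξ ∧ E = {x | Sum.elim w x ∈ ξ} := by
  obtain ⟨m, a, E0, ha, hE0, hEe⟩ := st_FSUP V G X (A ∪ Y) (hA.union hY) ι E hE
  have h1 : X.Ov (A ∪ Set.range (fun i : {i : Fin m // a i ∉ A} => a i)) E := by
    rw [hEe]
    refine ov_sec' (ov_mono X (Set.empty_subset _) hE0) ?_
    rintro _ ⟨i, rfl⟩
    by_cases hi : a i ∈ A
    · exact Or.inl hi
    · exact Or.inr ⟨⟨i, hi⟩, rfl⟩
  obtain ⟨ξ, hξ, he⟩ := a_fsu2 V G X A hA _ ι _ E h1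
  refine ⟨_, inferInstance, _, ξ, ?_, hξ, he⟩
  rintro _ ⟨⟨i, hi⟩, rfl⟩
  exact (ha ⟨i, rfl⟩).resolve_left hi

theorem st_TVL (hc : ST_COH) : ST_TVL := by
  intro V G _ _ X M Z Y hM hZ hY hYZ ι _ D c hD hcD hiso x hx
  have hMZ : (M ∪ Z).Countable := hM.1.union hZ
  refine st_TYPE V G X (M ∪ Z ∪ Y) (hMZ.union hY) ι c x ?_
  intro E hE hcE
  by_contra hxE
  obtain ⟨κ, hκ, w, ξ, hw, hξ, rfl⟩ := tvl_supp hMZ hY hE
  obtain ⟨S, hS, hwS⟩ := ov_sort (X := X) w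
  have hS' : X.Ov (M ∪ Z) S := ov_mono X (Set.empty_subset _) hS
  have hP := ov_prod hS' hD
  have h1 := ov_ex (ov_inter hP hξ)
  have h2 := ov_ex (ov_diff hP hξ)
  have hT := ov_inter h1 h2
  obtain ⟨w', ⟨⟨y1, hy1⟩, ⟨y2, hy2⟩⟩, hw'⟩ := hc V G X M Y Z hM hY hZ hYZ κ _ w hT
    ⟨⟨c, ⟨hwS, hcD⟩, hcE⟩, ⟨x, ⟨hwS, hx⟩, hxE⟩⟩ hw
  have hE' : X.Ov (M ∪ Z) {x | Sum.elim w' x ∈ ξ} :=
    ov_sec' hξ (fun v hv => Or.inl (hw' hv))
  have h3 : Eqv G (M ∪ Z) y1 y2 :=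
    eqv_trans (eqv_symm (hiso y1 hy1.1.2)) (hiso y2 hy2.1.2)
  obtain ⟨g, hg, hgy⟩ := h3
  apply hy2.2
  have := hE'.2 g hg y1 hy1.2
  rw [hgy] at this
  exact this

theorem dom_ind (ht : ST_TVL) {M Z Y : Set V} (hM : Mdl X M) (hZ : Z.Countable)
    (hY : Y.Countable) (hYZ : SI X M Y Z) {ι : Type} [Finite ι] {c : ι → V}
    (h : Isl X (M ∪ Z) c) : SI X M Y (Z ∪ Set.range c) ∧ Isl X (M ∪ Z ∪ Y) c := by
  have hMZ : (M ∪ Z).Countable := hM.1.union hZ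
  obtain ⟨D, hD, hcD, hiso⟩ := h
  have ht' := ht V G X M Z Y hM hZ hY hYZ ι D c hD hcD hiso
  refine ⟨?_, D, ov_mono X Set.subset_union_left hD, hcD, ht'⟩
  obtain ⟨b', ⟨g, hg, rfl⟩, hb'⟩ := a_ext V G X (M ∪ Z) (M ∪ Z ∪ Y) (hMZ.union hY)
    Set.subset_union_left ι c
  have h1 : Eqv G (M ∪ Z ∪ Y) c (g • c) := ht' _ (hD.2 g hg c hcD)
  have h2 : X.rk (M ∪ Z ∪ Y) c = X.rk (M ∪ Z) c := by
    rw [← hb']
    exact ((a_rkb V G X ι c).2.2.2.2.2 _ _ h1).symm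
  have h3 : SI X (M ∪ Z) (Set.range c) Y := (rk_si hMZ hY).1 h2
  exact si_trans hM.1 hY hZ (Set.countable_range c) hYZ
    (si_symm hMZ (Set.countable_range c) hY h3)

theorem dom_isl (hi : ST_ISLB) {A N : Set V} (hN : Atm X A N) {ι : Type} [Finite ι]
    {c : ι → V} (hc : Set.range c ⊆ N) : Isl X A c := by
  obtain ⟨n, ⟨e⟩⟩ := Finite.exists_equiv_fin ι
  have hA : A.Countable := hN.1.1.mono hN.2.1
  have h1 : Isl X A (c ∘ e.symm) := by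
    refine hN.2.2 n _ ?_
    rintro _ ⟨i, rfl⟩
    exact hc ⟨_, rfl⟩
  refine (hi V G X A hA (Fin n) (c ∘ e.symm)).2.1 ι c h1 ?_
  rintro _ ⟨i, rfl⟩
  exact Or.inr ⟨e i, by simp⟩

theorem st_DOM (ht : ST_TVL) (hi : ST_ISLB) : ST_DOM := by
  intro V G _ _ X M Z Y N hM hZ hY hN hYZ
  constructor
  · refine si_finite hM.1 hY hN.1.1 ?_
    intro B0 C0 hB0 hC0 _ hCf
    have : Finite C0 := hCf
    have h1 := dom_isl hi hN (c := (Subtype.val : C0 → V)) (by rwa [Subtype.range_coe])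
    have h2 := (dom_ind ht hM hZ hY hYZ h1).1
    rw [Subtype.range_coe] at h2
    exact si_left hB0 (si_right hM.1 hY (hZ.union hCf.countable) Set.subset_union_right h2)
  · intro ι _ c hc
    exact (dom_ind ht hM hZ hY hYZ (dom_isl hi hN hc)).2

theorem st_PRX (hd : ST_DOM) (ha : ST_ATMB) : ST_PRX := by
  intro V G _ _ X M Z Y N N' hM hZ hY hN hYZ hN'
  exact (ha V G X (M ∪ Z) N).2.2.2.2.1 Y N' hN' hN.2.1
    (fun n c hc => (hd V G X M Z Y N hM hZ hY hN hYZ).2 (Fin n) c hc)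

end Pool.Agent.Helper90.MZ
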