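import Pool.Agent.Helper90.MZ.StmtsA

/-!
# MP_79eb7e_lc: modules RLB (realizations) and BC (base change)
-/

set_option autoImplicit false

namespace Pool.Agent.Helper90.MZ

open Pool.Agent.Helper90.TS

variable {V G : Type} [Group G] [MulAction G V] {X : Ctx V G}

theorem rlb_rk {p : Ty V} (hp : SR X p) {B : Set V} (hB : B.Countable) {y : Fin 1 → V}
    (h : Rl X p B y) : X.rk (p.A ∪ B) y = X.rk p.A p.z := by
  rw [(rk_si hp.cnt hB).2 h.2]
  exact (a_rkb V G X (Fin 1) p.z).2.2.2.2.2 p.A y h.1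

theorem rlb_sta {p : Ty V} (hp : SR X p) {y : Fin 1 → V} (h : Eqv G p.A p.z y) :
    Sta X p.A y := by
  have e : X.rk p.A y = X.rk p.A p.z := (a_rkb V G X (Fin 1) p.z).2.2.2.2.2 p.A y h
  obtain ⟨g, hg, rfl⟩ := h
  obtain ⟨D, hD, hb, h2⟩ := hp.sta
  refine ⟨D, hD, hD.2 g hg _ hb, ?_⟩
  rwa [e]

theorem rlb_nself (hz : ST_RKZ) {A : Set V} (hA : A.Countable) {y : Fin 1 → V}
    (h : X.rk A y ≠ 0) : ¬ SI X A (Set.range y) (Set.range y) := by
  intro hs
  apply h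
  rw [← (rk_si (X := X) hA (Set.countable_range y)).2 hs]
  refine (hz V G X _ (hA.union (Set.countable_range y)) (Fin 1) y).2 ?_
  intro i
  exact (a_aclb V G X _ (hA.union (Set.countable_range y))).1 (Or.inr ⟨i, rfl⟩)

theorem st_RLB (_ : ST_MDLB) (hz : ST_RKZ) : ST_RLB := by
  intro V G _ _ X p hp B hB
  have hA := hp.cnt
  refine ⟨?_, ?_, ?_, ?_, ?_, ?_, ?_, ?_, ?_⟩
  · obtain ⟨g, hg, hs⟩ := si_ex (X := X) hA (Set.countable_range p.z) hB
    rw [tr_range] at hs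
    exact ⟨g • p.z, ⟨g, hg, rfl⟩, hs⟩
  · intro y y' h h'
    exact a_uni V G X p.A (p.A ∪ B) (hA.union hB) Set.subset_union_left (Fin 1) p.z y y' hp.sta
      h.1 h'.1 (rlb_rk hp hB h) (rlb_rk hp hB h')
  · intro y h B' hB'
    refine ⟨h.1, ?_⟩
    exact si_right hA (Set.countable_range y) (hA.union hB) hB'
      ((si_add_base hA (Set.countable_range y) hB).2 h.2)
  · intro y C hC h hs
    exact ⟨h.1, si_trans hA (Set.countable_range y) hB hC h.2 hs⟩
  · intro y C hC h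
    exact ((si_union hA (Set.countable_range y) hB hC).1 h.2).2
  · rintro y _ h ⟨g, hg, rfl⟩
    refine ⟨eqv_trans h.1 ⟨g, (fx_union.1 hg).1, rfl⟩, ?_⟩
    have := (si_fx_left hA (Set.countable_range y) hB hg).2 h.2
    rwa [tr_range] at this
  · rintro y ⟨⟨g, hg, rfl⟩, -⟩
    exact hp.ov.2 g hg _ hp.mem
  · intro y h _ hAB hy
    have h1 : SI X p.A (Set.range y) (Set.range y) :=
      si_right hA (Set.countable_range y) hB hy h.2
    refine rlb_nself hz hA ?_ h1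
    rw [(a_rkb V G X (Fin 1) p.z).2.2.2.2.2 p.A y h.1]
    exact hp.nal
  · intro y h
    exact ⟨rlb_rk hp hB h, sta_up hA hB (rlb_sta hp h.1) h.2⟩

theorem st_BC (hr : ST_RLB) (hz : ST_RKZ) : ST_BC := by
  intro V G _ _ X p B y hp hB hy
  obtain ⟨-, r2, r3, r4, -, r6, r7, -, r9⟩ := hr V G X p hp B hB
  have hA := hp.cnt
  have hAB : (p.A ∪ B).Countable := hA.union hB
  have key : ∀ (C : Set V) (y' : Fin 1 → V), C.Countable →
      (Rl X ⟨p.A ∪ B, p.D, y⟩ C y' ↔ Rl X p (B ∪ C) y') := by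
    intro C y' hC
    constructor
    · intro h
      exact r4 y' C hC (r6 y y' hy h.1) h.2
    · intro h
      have h1 : Rl X p B y' := by
        refine (hr V G X p hp (B ∪ C) (hB.union hC)).2.2.1 y' h B ?_
        exact fun x hx => Or.inr (Or.inl hx)
      exact ⟨r2 y y' hy h1, ((si_union hA (Set.countable_range y') hB hC).1 h.2).2⟩
  have h1 : Rl X p (p.A ∪ B) y := r3 y hy _ le_rfl
  have h2 : Rl X ⟨p.A ∪ B, p.D, y⟩ (p.A ∪ B) y := ⟨eqv_refl _ _, si_self_right le_rfl⟩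
  have h3 : X.rk (p.A ∪ B) y ≠ 0 := by
    rw [(r9 y hy).1]
    exact hp.nal
  have h4 : ¬ SI X (p.A ∪ B) (Set.range y) (Set.range y) := rlb_nself hz hAB h3
  refine ⟨⟨hAB, ov_mono X Set.subset_union_left hp.ov, r7 y hy, (r9 y hy).2, h3, ?_⟩, key, ?_, ?_⟩
  · intro C hC y' hy'
    rcases hp.reg (B ∪ C) (hB.union hC) y' hy' with h | h
    · exact Or.inl ((key C y' hC).2 h)
    · refine Or.inr (fun z' hz' => ?_)
      have := h z' ((key C z' hC).1 hz')
      rwa [← Set.union_assoc] at this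
  · exact ⟨p.A ∪ B, y, y, hAB, Set.subset_union_left, le_rfl, h1, h2, h4⟩
  · exact ⟨p.A ∪ B, y, y, hAB, le_rfl, Set.subset_union_left, h2, h1, h4⟩

end Pool.Agent.Helper90.MZ
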