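import Pool.Agent.Helper90.MZ.StmtsA

/-!
# MP_79eb7e_lc: modules SRL, SRM (models omitting a strongly regular type)
-/

set_option autoImplicit false

namespace Pool.Agent.Helper90.MZ

open Pool.Agent.Helper90.TS

variable {V G : Type} [Group G] [MulAction G V] {X : Ctx V G}

theorem pts_sub {D : Set (Fin 1 → V)} {N : Set V} : Pts D N ⊆ N := by
  rintro v ⟨x, _, hx, hv⟩
  exact hx hv

theorem srl_rl (hr : ST_RLB) {p : Ty V} (hp : SR X p) {B0 B N : Set V} (hB : B.Countable)
    (hB0 : B0 ⊆ B) (hO : Om X p B0 N) {y : Fin 1 → V} (hy : Rl X p B y)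
    {F : Set (Fin 1 → V)} (hF : F.Finite) (hFD : ∀ s ∈ F, s ∈ p.D ∧ Set.range s ⊆ N) :
    Rl X p (B ∪ ⋃ s ∈ F, Set.range s) y := by
  induction F, hF using Set.Finite.induction_on with
  | empty => simpa using hy
  | @insert s F _ hF ih =>
    have h1 := ih (fun t ht => hFD t (Set.mem_insert_of_mem _ ht))
    have hc : (⋃ t ∈ F, Set.range t).Countable :=
      hF.countable.biUnion (fun t _ => Set.countable_range t)
    have hc' : (B ∪ ⋃ t ∈ F, Set.range t).Countable := hB.union hc
    have e : B ∪ ⋃ t ∈ insert s F, Set.range t = (B ∪ ⋃ t ∈ F, Set.range t) ∪ Set.range s := by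
      rw [Set.biUnion_insert, Set.union_comm (Set.range s), Set.union_assoc]
    rw [e]
    rcases hp.reg _ hc' s (hFD s (Set.mem_insert _ _)).1 with h | h
    · exfalso
      refine hO s (hFD s (Set.mem_insert _ _)).2 ?_
      refine (hr V G X p hp _ hc').2.2.1 s h B0 ?_
      exact fun x hx => Or.inr (Or.inl (hB0 hx))
    · exact (hr V G X p hp _ hc').2.2.2.1 y _ (Set.countable_range s) h1 (h y h1)

theorem srl_pts (hr : ST_RLB) {p : Ty V} (hp : SR X p) {B0 B N : Set V} (hB : B.Countable)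
    (hN : N.Countable) (hB0 : B0 ⊆ B) (hO : Om X p B0 N) {y : Fin 1 → V} (hy : Rl X p B y) :
    SI X (p.A ∪ B) (Set.range y) (Pts p.D N) := by
  classical
  refine si_finite (hp.cnt.union hB) (Set.countable_range y) (hN.mono pts_sub) ?_
  intro Y0 C0 hY0 hC0 _ hCf
  choose! f hf1 hf2 hf3 using hC0
  have h1 := srl_rl hr hp hB hB0 hO hy (F := f '' C0) (hCf.image f) (by
    rintro _ ⟨v, hv, rfl⟩
    exact ⟨hf1 hv, hf2 hv⟩)
  have hc : (⋃ s ∈ f '' C0, Set.range s).Countable :=
    (hCf.image f).countable.biUnion (fun t _ => Set.countable_range t)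
  have h2 := (hr V G X p hp B hB).2.2.2.2.1 y _ hc h1
  refine si_left hY0 (si_right (hp.cnt.union hB) (Set.countable_range y) hc ?_ h2)
  intro v hv
  exact Set.mem_biUnion (Set.mem_image_of_mem f hv) (hf3 hv)

theorem st_SRL (hs : ST_SEM) (hr : ST_RLB) : ST_SRL := by
  intro V G _ _ X p B N hp hN hAN hBN hO y hy
  have hB : B.Countable := hN.1.mono hBN
  have hA : p.A.Countable := hp.cnt
  have hAB : (p.A ∪ B).Countable := hA.union hB
  have h1 := srl_pts hr hp hB hN.1 le_rfl hO hy
  have hyD : y ∈ p.D := (hr V G X p hp B hB).2.2.2.2.2.2.1 y hy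
  have h2 := (hs V G X (p.A ∪ B) N p.D hN (Set.union_subset hAN hBN)
    (ov_mono X Set.subset_union_left hp.ov) 1 (fun _ => y) (fun _ => hyD)).1
  rw [Set.iUnion_const] at h2
  have h3 := si_trans hAB (Set.countable_range y) (hN.1.mono pts_sub) hN.1 h1 h2
  have h4 := si_right hAB (Set.countable_range y) ((hN.1.mono pts_sub).union hN.1)
    Set.subset_union_right h3
  refine ⟨hy.1, ?_⟩
  exact si_right hA (Set.countable_range y) (hB.union hN.1) Set.subset_union_right
    (si_trans hA (Set.countable_range y) hB hN.1 hy.2 h4)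

theorem st_SRM (hs : ST_SEM) (hr : ST_RLB) : ST_SRM := by
  intro V G _ _ X p M N Y y hp hM hAM hN hMN hO hY hYN hy
  have hMY : (M ∪ Y).Countable := hM.1.union hY
  have h1 := srl_pts hr hp hMY hN.1 Set.subset_union_left hO hy
  rw [Set.union_eq_self_of_subset_left (hAM.trans Set.subset_union_left)] at h1
  have hyD : y ∈ p.D := (hr V G X p hp _ hMY).2.2.2.2.2.2.1 y hy
  have h2 := (hs V G X M N p.D hN hMN (ov_mono X hAM hp.ov) 1 (fun _ => y)
    (fun _ => hyD)).2 hM Y hY hYN
  rw [Set.iUnion_const] at h2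
  have h3 := si_trans hMY (Set.countable_range y) (hN.1.mono pts_sub) hN.1 h1 h2
  exact si_right hMY (Set.countable_range y) ((hN.1.mono pts_sub).union hN.1)
    Set.subset_union_right h3

end Pool.Agent.Helper90.MZ
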