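import Pool.Agent.Helper90.MZ.StmtsA

/-!
# MP_79eb7e_lc: module STN (stationary sets)
-/

set_option autoImplicit false

namespace Pool.Agent.Helper90.MZ

open Pool.Agent.Helper90.TS

variable {V G : Type} [Group G] [MulAction G V] {X : Ctx V G} {A B C : Set V}

theorem stn_conj (g : G) (hA : A.Countable) (hB : B.Countable) (h : Stn X A B) :
    Stn X (tr g A) (tr g B) := by
  intro C' hC' k hk h1 h2
  have hC : (tr g⁻¹ C').Countable := tr_countable _ hC'
  have e1 : SI X A B (tr g⁻¹ C') := by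
    refine (si_tr hA hB hC g).1 ?_
    rwa [tr_tr_inv]
  have hk' : g⁻¹ * k * g ∈ Fx G A := by
    refine (fx_conj (g := g) (h := g⁻¹ * k * g) (A := A)).1 ?_
    have e : g * (g⁻¹ * k * g) * g⁻¹ = k := by group
    rw [e]
    exact hk
  have e2 : SI X A (tr (g⁻¹ * k * g) B) (tr g⁻¹ C') := by
    refine (si_tr hA (tr_countable _ hB) hC g).1 ?_
    rw [tr_tr_inv, tr_tr]
    have e : g * (g⁻¹ * k * g) = k * g := by group
    rw [e, ← tr_tr]
    exact h2
  obtain ⟨h', hh', hx⟩ := h _ hC _ hk' e1 e2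
  refine ⟨g * h' * g⁻¹, ?_, ?_⟩
  · have := (fx_conj (g := g) (h := h') (A := A ∪ tr g⁻¹ C')).2 hh'
    rwa [tr_union, tr_tr_inv] at this
  · rintro _ ⟨x, hxB, rfl⟩
    have h3 := hx x hxB
    rw [mul_smul, mul_smul, inv_smul_smul, h3, mul_smul, mul_smul, smul_inv_smul]

theorem stn_conj' {k : G} (hk : k ∈ Fx G A) (hA : A.Countable) (hB : B.Countable)
    (h : Stn X A B) : Stn X A (tr k B) := by
  have := stn_conj k hA hB h
  rwa [tr_fx hk] at this

theorem stn_fin (hA : A.Countable) (hB : B.Countable)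
    (h : ∀ B0 ⊆ B, B0.Finite → Stn X A B0) : Stn X A B := by
  intro C hC g hg h1 h2
  rcases B.eq_empty_or_nonempty with rfl | hne
  · exact ⟨1, Subgroup.one_mem _, fun x hx => absurd hx (Set.notMem_empty x)⟩
  obtain ⟨d, hd⟩ := hB.exists_eq_range hne
  have key : SqEq G (A ∪ C) d (fun i => g • d i) := by
    refine st_TYPS V G X (A ∪ C) (hA.union hC) d _ ?_
    intro n
    have hsub : Set.range (fun i : Fin n => d i) ⊆ B := by
      rw [hd]
      rintro _ ⟨i, rfl⟩
      exact ⟨_, rfl⟩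
    obtain ⟨h', hh', hx⟩ := h _ hsub (Set.finite_range _) C hC g hg (si_left hsub h1)
      (si_left (tr_mono g hsub) h2)
    refine ⟨h', hh', ?_⟩
    funext i
    exact hx _ ⟨i, rfl⟩
  obtain ⟨h', hh', hx⟩ := key
  refine ⟨h', hh', ?_⟩
  intro x hxB
  rw [hd] at hxB
  obtain ⟨i, rfl⟩ := hxB
  exact hx i

theorem stn_sub {B' : Set V} (hA : A.Countable) (hB : B.Countable) (hs : B' ⊆ B)
    (h : Stn X A B) : Stn X A B' := by
  intro C hC g hg h1 h2
  have hB' : B'.Countable := hB.mono hs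
  have hgB' : (tr g B').Countable := tr_countable _ hB'
  obtain ⟨k, hk, hk2⟩ := si_ex (X := X) (hA.union hB') hB hC
  obtain ⟨hkA, hkB'⟩ := fx_union.1 hk
  have hkB : (tr k B).Countable := tr_countable _ hB
  have hsub : B' ⊆ tr k B := by
    have := tr_mono k hs
    rwa [tr_fx hkB'] at this
  have e1 : SI X A (tr k B) C :=
    si_left Set.subset_union_right (si_transl hA hB' hC hkB h1 hk2)
  obtain ⟨m, hm, hm2⟩ := si_ex (X := X) (hA.union hgB') (tr_countable g hkB) hC
  obtain ⟨hmA, hmB'⟩ := fx_union.1 hm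
  have e2 : SI X A (tr (m * g) (tr k B)) C := by
    rw [← tr_tr]
    exact si_left Set.subset_union_right
      (si_transl hA hgB' hC (tr_countable _ (tr_countable _ hkB)) h2 hm2)
  obtain ⟨h', hh', hx⟩ := stn_conj' hkA hA hB h C hC (m * g) (Subgroup.mul_mem _ hmA hg) e1 e2
  refine ⟨h', hh', ?_⟩
  intro x hxB
  rw [hx x (hsub hxB), mul_smul]
  exact hmB' _ ⟨x, hxB, rfl⟩

theorem stn_un {B' : Set V} (hA : A.Countable) (hB : B.Countable) (hB' : B'.Countable)
    (h : Stn X A B) (h' : Stn X A B') (hi : SI X A B B') : Stn X A (B ∪ B') := by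
  intro C hC g hg h1 h2
  have hgB : (tr g B).Countable := tr_countable _ hB
  have hgB' : (tr g B').Countable := tr_countable _ hB'
  obtain ⟨k, hk, hkx⟩ := h C hC g hg (si_left Set.subset_union_left h1)
    (si_left (tr_mono g Set.subset_union_left) h2)
  obtain ⟨hkA, hkC⟩ := fx_union.1 hk
  have hkB : tr k B = tr g B := by
    ext y
    constructor
    · rintro ⟨x, hx, rfl⟩
      exact ⟨x, hx, (hkx x hx).symm⟩
    · rintro ⟨x, hx, rfl⟩
      exact ⟨x, hx, hkx x hx⟩
  have hkB'c : (tr k B').Countable := tr_countable _ hB'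
  have h3 : SI X A B' (B ∪ C) :=
    si_trans hA hB' hB hC (si_symm hA hB hB' hi) ((si_unionl hA hB hC hB').1 h1).2
  have e1 : SI X A (tr k B') (C ∪ tr g B) := by
    have := (si_fx hA hB' (hB.union hC) hkA).2 h3
    rwa [tr_union, tr_fx hkC, hkB, Set.union_comm] at this
  have e2 : SI X A (tr g B') (C ∪ tr g B) := by
    rw [tr_union] at h2
    have h4 : SI X A (tr g B') (tr g B) := (si_fx hA hB' hB hg).2 (si_symm hA hB hB' hi)
    have := si_trans hA hgB' hgB hC h4 ((si_unionl hA hgB hC hgB').1 h2).2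
    rwa [Set.union_comm] at this
  have hg2 : g * k⁻¹ ∈ Fx G A := Subgroup.mul_mem _ hg (Subgroup.inv_mem _ hkA)
  have e3 : tr (g * k⁻¹) (tr k B') = tr g B' := by
    rw [tr_tr, inv_mul_cancel_right]
  obtain ⟨l, hl, hlx⟩ := stn_conj' hkA hA hB' h' (C ∪ tr g B) (hC.union hgB) (g * k⁻¹) hg2 e1
    (by rw [e3]; exact e2)
  obtain ⟨hlA, hlC⟩ := fx_union.1 hl
  obtain ⟨hlC, hlB⟩ := fx_union.1 hlC
  refine ⟨l * k, Subgroup.mul_mem _ (fx_union.2 ⟨hlA, hlC⟩) hk, ?_⟩
  rintro x (hx | hx)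
  · rw [mul_smul, hkx x hx]
    exact hlB _ ⟨x, hx, rfl⟩
  · rw [mul_smul, hlx _ ⟨x, hx, rfl⟩, mul_smul, inv_smul_smul]

theorem stn_up (hA : A.Countable) (hB : B.Countable) (hC : C.Countable) (h : Stn X A B)
    (hi : SI X A B C) : Stn X (A ∪ C) B := by
  intro C' hC' g hg h1 h2
  have hgB : (tr g B).Countable := tr_countable _ hB
  obtain ⟨k, hk, hkx⟩ := h (C ∪ C') (hC.union hC') g (fx_union.1 hg).1
    (si_trans hA hB hC hC' hi h1)
    (si_trans hA hgB hC hC' ((si_fx_left hA hB hC hg).2 hi) h2)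
  refine ⟨k, ?_, hkx⟩
  rwa [Set.union_assoc]

theorem stn_of_sta_finite {u : Set V} (hA : A.Countable) (_ : u.Finite)
    (h : Sta X A (Subtype.val : u → V)) [Finite u] : Stn X A u := by
  have := sta_stn hA h
  rwa [Subtype.range_coe] at this

theorem st_STN (h1 : ST_MDLB) : ST_STN := by
  intro V G _ _ X
  refine ⟨?_, ?_, ?_, ?_, ?_, ?_, ?_⟩
  · intro M B hM hB
    refine stn_fin hM.1 hB ?_
    intro B0 _ hB0
    have : Finite B0 := hB0
    exact stn_of_sta_finite hM.1 hB0 ((h1 V G X).2.2.2.1 M hM B0 _)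
  · intro A B B' hA hB hs h
    exact stn_sub hA hB hs h
  · intro A B B' hA hB hB' h h' hi
    exact stn_un hA hB hB' h h' hi
  · intro A B hA hB h
    exact stn_fin hA hB h
  · intro A B C hA hB hC h hi
    exact stn_up hA hB hC h hi
  · intro A B g hA hB h
    exact stn_conj g hA hB h
  · intro A u hA hu
    have : Finite u := hu
    obtain ⟨e, he, hef, hs⟩ := a_stat V G X A hA u (Subtype.val : u → V)
    exact ⟨e, he, hef, stn_of_sta_finite (hA.union hef.countable) hu hs⟩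

end Pool.Agent.Helper90.MZ
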